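import Mathlib

/-!
# Project GO: coefficientwise maps of Laurent series
-/

namespace Pool.Agent.P8H91.GO

open Polynomial

universe u

/-- the coefficientwise map of Laurent series -/
noncomputable def hmap {R S : Type*} [Field R] [Field S] (f : R →+* S) :
    LaurentSeries R →+* LaurentSeries S where
  toFun x := HahnSeries.map x f
  map_one' := by
    show HahnSeries.map (HahnSeries.single 0 1) f = HahnSeries.single 0 1
    ext j
    by_cases h : j = 0
    · subst h
      simp
    · simp
  map_mul' x y := HahnSeries.map_mul (f : R →ₙ+* S)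
  map_zero' := by ext i; simp
  map_add' x y := HahnSeries.map_add (f : R →+ S)

lemma hmap_coeff {R S : Type*} [Field R] [Field S] (f : R →+* S) (x : LaurentSeries R)
    (i : ℤ) : (hmap f x).coeff i = f (x.coeff i) := rfl

lemma algebraMap_eq {R : Type*} [Field R] (c : R) :
    algebraMap R (LaurentSeries R) c = HahnSeries.single 0 c := by
  show HahnSeries.ofPowerSeries ℤ R (algebraMap R (PowerSeries R) c) = HahnSeries.single 0 c
  rw [PowerSeries.algebraMap_apply, Algebra.algebraMap_self, RingHom.id_apply,
    HahnSeries.ofPowerSeries_C, HahnSeries.C_apply]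

lemma hmap_single {R S : Type*} [Field R] [Field S] (f : R →+* S) (i : ℤ) (c : R) :
    hmap f (HahnSeries.single i c) = HahnSeries.single i (f c) := by
  ext j
  rw [hmap_coeff]
  by_cases h : j = i
  · subst h
    simp
  · rw [HahnSeries.coeff_single_of_ne h, HahnSeries.coeff_single_of_ne h, map_zero]

lemma hmap_algebraMap {R S : Type*} [Field R] [Field S] (f : R →+* S) (c : R) :
    hmap f (algebraMap R (LaurentSeries R) c) = algebraMap S (LaurentSeries S) (f c) := by
  rw [algebraMap_eq, algebraMap_eq, hmap_single]

lemma hmap_comp {R S T : Type*} [Field R] [Field S] [Field T] (f : R →+* S) (g : S →+* T)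
    (x : LaurentSeries R) : hmap g (hmap f x) = hmap (g.comp f) x := by
  ext i
  simp [hmap_coeff]

lemma hmap_id {R : Type*} [Field R] (x : LaurentSeries R) : hmap (RingHom.id R) x = x := by
  ext i
  simp [hmap_coeff]

/-- a Laurent series without negative exponents is a power series -/
lemma exists_powerSeries {R : Type*} [Field R] (x : LaurentSeries R)
    (h : ∀ j : ℤ, j < 0 → x.coeff j = 0) :
    ∃ W : PowerSeries R, (W : LaurentSeries R) = x := by
  refine ⟨PowerSeries.mk fun n => x.coeff n, ?_⟩
  ext i
  rw [PowerSeries.coeff_coe]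
  split_ifs with hi
  · exact (h i hi).symm
  · rw [PowerSeries.coeff_mk]
    congr 1
    omega

lemma inv_coeff {R : Type*} [Field R] (x : LaurentSeries R) (j : ℤ) (hj : j < 0)
    (hx : x.coeff j ≠ 0) : ∀ i : ℤ, i ≤ 0 → (x⁻¹).coeff i = 0 := by
  intro i hi
  have hx0 : x ≠ 0 := by
    rintro rfl
    exact hx rfl
  have h1 : x.order ≤ j := HahnSeries.order_le_of_coeff_ne_zero hx
  have h2 : x.order + (x⁻¹).order = 0 := by
    rw [← HahnSeries.order_mul hx0 (inv_ne_zero hx0), mul_inv_cancel₀ hx0, HahnSeries.order_one]
  exact HahnSeries.coeff_eq_zero_of_lt_order (by omega)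

end Pool.Agent.P8H91.GO
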