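import Pool.Agent.P8H91.GO.Stm
import Pool.Agent.P8H91.GO.Ser

/-!
# Project GO: the key inequality
-/

namespace Pool.Agent.P8H91.GO

open Polynomial IntermediateField

universe u

section Frob

variable {k E : Type u} [Field k] [Field E] [Algebra k E]

/-- an endomorphism of the Laurent series acts on the image of `E` -/
lemma act_exists (Y : Set E) (hY : adjoin k Y = ⊤) (i₀ : E →ₐ[k] LaurentSeries k)
    (g : LaurentSeries k →+* LaurentSeries k) (φ : k → k)
    (hk : ∀ c : k, g (algebraMap k _ c) = algebraMap k _ (φ c))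
    (hg : ∀ x ∈ Y, g (i₀ x) = i₀ x) (x : E) : ∃ y : E, i₀ y = g (i₀ x) := by
  have hx : x ∈ adjoin k Y := by rw [hY]; trivial
  induction hx using adjoin_induction with
  | mem x hx => exact ⟨x, (hg x hx).symm⟩
  | algebraMap c => exact ⟨algebraMap k E (φ c), by rw [AlgHom.commutes, AlgHom.commutes, hk]⟩
  | add x y _ _ h1 h2 =>
    obtain ⟨a, ha⟩ := h1
    obtain ⟨b, hb⟩ := h2
    exact ⟨a + b, by rw [map_add, map_add, map_add, ha, hb]⟩
  | inv x _ h1 =>
    obtain ⟨a, ha⟩ := h1
    exact ⟨a⁻¹, by rw [map_inv₀, map_inv₀, map_inv₀, ha]⟩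
  | mul x y _ _ h1 h2 =>
    obtain ⟨a, ha⟩ := h1
    obtain ⟨b, hb⟩ := h2
    exact ⟨a * b, by rw [map_mul, map_mul, map_mul, ha, hb]⟩

/-- the induced automorphism of `E` -/
lemma act_equiv (Y : Set E) (hY : adjoin k Y = ⊤) (i₀ : E →ₐ[k] LaurentSeries k)
    (φ : k ≃+* k) (hg : ∀ x ∈ Y, hmap (φ : k →+* k) (i₀ x) = i₀ x) :
    ∃ σ : E ≃+* E, (∀ x, i₀ (σ x) = hmap (φ : k →+* k) (i₀ x)) ∧
      (∀ c : k, σ (algebraMap k E c) = algebraMap k E (φ c)) ∧ ∀ x ∈ Y, σ x = x := by
  have h1 := act_exists Y hY i₀ (hmap (φ : k →+* k)) φ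
    (fun c => by rw [hmap_algebraMap]; rfl) hg
  have hg' : ∀ x ∈ Y, hmap (φ.symm : k →+* k) (i₀ x) = i₀ x := by
    intro x hx
    conv_lhs => rw [← hg x hx]
    rw [hmap_comp]
    have : ((φ.symm : k →+* k).comp (φ : k →+* k)) = RingHom.id k := by
      ext c
      simp
    rw [this, hmap_id]
  have h2 := act_exists Y hY i₀ (hmap (φ.symm : k →+* k)) φ.symm
    (fun c => by rw [hmap_algebraMap]; rfl) hg'
  choose f hf using h1
  choose f' hf' using h2
  have hinj : Function.Injective i₀ := i₀.toRingHom.injective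
  refine ⟨{ toFun := f, invFun := f', left_inv := ?_, right_inv := ?_, map_mul' := ?_,
            map_add' := ?_ }, hf, ?_, ?_⟩
  · intro x
    apply hinj
    rw [hf', hf, hmap_comp]
    have : ((φ.symm : k →+* k).comp (φ : k →+* k)) = RingHom.id k := by
      ext c
      simp
    rw [this, hmap_id]
  · intro x
    apply hinj
    rw [hf, hf', hmap_comp]
    have : ((φ : k →+* k).comp (φ.symm : k →+* k)) = RingHom.id k := by
      ext c
      simp
    rw [this, hmap_id]
  · intro x y
    apply hinj
    rw [hf, map_mul, map_mul, map_mul, hf, hf]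
  · intro x y
    apply hinj
    rw [hf, map_add, map_add, map_add, hf, hf]
  · intro c
    apply hinj
    show i₀ (f _) = _
    rw [hf, AlgHom.commutes, AlgHom.commutes, hmap_algebraMap]
    rfl
  · intro x hx
    apply hinj
    show i₀ (f _) = _
    rw [hf, hg x hx]

/-- compatibility with the other embeddings -/
lemma act_compat (Y : Set E) (hY : adjoin k Y = ⊤) (φ : k ≃+* k) (σ : E ≃+* E)
    (hσ : ∀ c : k, σ (algebraMap k E c) = algebraMap k E (φ c)) (hσY : ∀ x ∈ Y, σ x = x)
    (i : E →ₐ[k] LaurentSeries k) (hg : ∀ x ∈ Y, hmap (φ : k →+* k) (i x) = i x) (x : E) :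
    i (σ x) = hmap (φ : k →+* k) (i x) := by
  have hx : x ∈ adjoin k Y := by rw [hY]; trivial
  induction hx using adjoin_induction with
  | mem x hx => rw [hσY x hx, hg x hx]
  | algebraMap c =>
    rw [hσ, AlgHom.commutes, AlgHom.commutes, hmap_algebraMap]
    rfl
  | add x y _ _ h1 h2 => rw [map_add, map_add, map_add, map_add, h1, h2]
  | inv x _ h1 => rw [map_inv₀, map_inv₀, map_inv₀, map_inv₀, h1]
  | mul x y _ _ h1 h2 => rw [map_mul, map_mul, map_mul, map_mul, h1, h2]

/-- the degree is invariant -/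
lemma finrank_act (φ : k ≃+* k) (σ : E ≃+* E)
    (hσ : ∀ c : k, σ (algebraMap k E c) = algebraMap k E (φ c)) (y : E) :
    Module.finrank (adjoin k {σ y}) E = Module.finrank (adjoin k {y}) E := by
  have hσ' : ∀ c : k, σ.symm (algebraMap k E c) = algebraMap k E (φ.symm c) := by
    intro c
    rw [RingEquiv.symm_apply_eq, hσ, RingEquiv.apply_symm_apply]
  have h1 : ∀ x ∈ adjoin k {y}, σ x ∈ adjoin k {σ y} := by
    intro x hx
    induction hx using adjoin_induction with
    | mem x hx => rw [Set.mem_singleton_iff.mp hx]; exact mem_adjoin_simple_self k _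
    | algebraMap c => rw [hσ]; exact IntermediateField.algebraMap_mem _ _
    | add x y _ _ h1 h2 => rw [map_add]; exact add_mem h1 h2
    | inv x _ h1 => rw [map_inv₀]; exact inv_mem h1
    | mul x y _ _ h1 h2 => rw [map_mul]; exact mul_mem h1 h2
  have h2 : ∀ x ∈ adjoin k {σ y}, σ.symm x ∈ adjoin k {y} := by
    intro x hx
    induction hx using adjoin_induction with
    | mem x hx =>
      rw [Set.mem_singleton_iff.mp hx, RingEquiv.symm_apply_apply]
      exact mem_adjoin_simple_self k _
    | algebraMap c => rw [hσ']; exact IntermediateField.algebraMap_mem _ _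
    | add x y _ _ h1 h2 => rw [map_add]; exact add_mem h1 h2
    | inv x _ h1 => rw [map_inv₀]; exact inv_mem h1
    | mul x y _ _ h1 h2 => rw [map_mul]; exact mul_mem h1 h2
  let i : adjoin k {σ y} ≃+* adjoin k {y} :=
    { toFun := fun x => ⟨σ.symm x, h2 x x.2⟩
      invFun := fun x => ⟨σ x, h1 x x.2⟩
      left_inv := fun x => by simp
      right_inv := fun x => by simp
      map_mul' := fun x y => by
        apply Subtype.ext
        simp
      map_add' := fun x y => by
        apply Subtype.ext
        simp }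
  refine Algebra.finrank_eq_of_equiv_equiv i σ.symm ?_
  ext x
  rfl

end Frob

/-- a power generates a smaller field -/
lemma not_mem_adjoin_pow {k E : Type u} [Field k] [Field E] [Algebra k E] (y : E)
    (hy : Transcendental k y) (q : ℕ) (hq : 2 ≤ q) : y ∉ adjoin k {y ^ q} := by
  intro h
  obtain ⟨r, s, h⟩ := (mem_adjoin_simple_iff k _).mp h
  have hs : aeval (y ^ q) s ≠ 0 := by
    intro h0
    rw [h0, div_zero] at h
    exact hy (h ▸ isAlgebraic_zero)
  have h1 : y * aeval (y ^ q) s = aeval (y ^ q) r := by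
    rw [eq_div_iff hs] at h
    exact h
  have h2 : aeval y (X * expand k q s - expand k q r) = 0 := by
    rw [map_sub, map_mul, aeval_X, expand_aeval, expand_aeval, h1, sub_self]
  have h3 := (transcendental_iff.mp hy) _ h2
  have h4 : X * expand k q s = expand k q r := sub_eq_zero.mp h3
  have hs0 : s ≠ 0 := by
    rintro rfl
    simp at hs
  have h5 := congrArg natDegree h4
  rw [natDegree_mul X_ne_zero ((expand_eq_zero (by omega)).not.mpr hs0), natDegree_X,
    natDegree_expand, natDegree_expand] at h5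
  have h6 : q ∣ 1 := by
    have : q ∣ 1 + s.natDegree * q := by
      rw [h5]
      exact Dvd.intro_left _ rfl
    exact (Nat.dvd_add_left (Dvd.intro_left _ rfl)).mp this
  have := Nat.le_of_dvd one_pos h6
  omega

lemma adjoin_inv {k E : Type u} [Field k] [Field E] [Algebra k E] (y : E) :
    adjoin k {y⁻¹} = adjoin k {y} := by
  apply le_antisymm
  · rw [adjoin_simple_le_iff]
    exact inv_mem (mem_adjoin_simple_self k y)
  · rw [adjoin_simple_le_iff]
    have := inv_mem (mem_adjoin_simple_self k y⁻¹)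
    rwa [inv_inv] at this

lemma mem_of_alg {k E : Type u} [Field k] [IsAlgClosed k] [Field E] [Algebra k E] (x : E)
    (hx : IsAlgebraic k x) : ∃ c : k, algebraMap k E c = x := by
  have h1 : (minpoly k x).degree = 1 :=
    IsAlgClosed.degree_eq_one_of_irreducible k (minpoly.irreducible hx.isIntegral)
  exact minpoly.mem_range_of_degree_eq_one k x h1

theorem key (hFD : S_FD.{u}) (hADD : S_ADD.{u}) (hZER : S_ZER.{u}) : S_KEY.{u} := by
  classical
  intro κ k E _ _ _ _ _ _ _ τ Z e he hτ hZ S hS y hy hfd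
  rcases S.eq_empty_or_nonempty with rfl | ⟨i₀, hi₀⟩
  · simp
  set q := Fintype.card κ with hq
  obtain ⟨p, hp⟩ := CharP.exists κ
  obtain ⟨f, hpp, hqf⟩ := FiniteField.card κ p
  have : Fact p.Prime := ⟨hpp⟩
  have hpk : CharP k p := charP_of_injective_algebraMap (algebraMap κ k).injective p
  have : ExpChar k p := ExpChar.prime hpp
  have hq2 : 2 ≤ q := Fintype.one_lt_card
  let φ : k ≃+* k := iterateFrobeniusEquiv k p f
  have hφ : ∀ c : k, φ c = c ^ q := by
    intro c
    show iterateFrobeniusEquiv k p f c = _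
    rw [iterateFrobeniusEquiv_apply, iterateFrobenius_def, hq, hqf]
  have hfix : ∀ i ∈ S, ∀ x ∈ insert τ Z, hmap (φ : k →+* k) (i x) = i x := by
    intro i hi x hx
    obtain ⟨h1, h2⟩ := hS i hi
    rcases Set.mem_insert_iff.mp hx with rfl | hx
    · rw [h1, hmap_single, map_one]
    · ext j
      rw [hmap_coeff]
      obtain ⟨c, hc⟩ := h2 x hx j
      rw [hc]
      show φ _ = _
      rw [hφ, ← map_pow, FiniteField.pow_card]
  obtain ⟨σ, h1, h2, h3⟩ := act_equiv (insert τ Z) hZ i₀ φ (hfix i₀ hi₀)
  have hcom : ∀ i ∈ S, ∀ x, i (σ x) = hmap (φ : k →+* k) (i x) := fun i hi =>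
    act_compat (insert τ Z) hZ φ σ h2 h3 i (hfix i hi)
  have hdeg := finrank_act φ σ h2 y
  have hpos : 0 < Module.finrank (adjoin k {y}) E := Module.finrank_pos
  have hσy : Transcendental k (σ y) := by
    intro h
    obtain ⟨c, hc⟩ := mem_of_alg _ h
    apply hy
    have h4 : σ (algebraMap k E (φ.symm c)) = σ y := by
      rw [h2, RingEquiv.apply_symm_apply, hc]
    rw [← σ.injective h4]
    exact isAlgebraic_algebraMap _
  set s := σ y - y ^ q with hs
  have hyq : Transcendental k (y ^ q) := hy.pow (by omega)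
  have hle : adjoin k {y ^ q} ≤ adjoin k {y} := by
    rw [adjoin_simple_le_iff]
    exact pow_mem (mem_adjoin_simple_self k y) q
  have hsT : Transcendental k s := by
    intro h
    obtain ⟨c, hc⟩ := mem_of_alg _ h
    have h4 : σ y = y ^ q + algebraMap k E c := by
      rw [hc, hs]
      ring
    have h5 : adjoin k {σ y} = adjoin k {y ^ q} := by
      apply le_antisymm
      · rw [adjoin_simple_le_iff, h4]
        exact add_mem (mem_adjoin_simple_self k _) (IntermediateField.algebraMap_mem _ _)
      · rw [adjoin_simple_le_iff]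
        have h6 : y ^ q = σ y - algebraMap k E c := by
          rw [h4]
          ring
        rw [h6]
        exact sub_mem (mem_adjoin_simple_self k _) (IntermediateField.algebraMap_mem _ _)
    have h6 := relfinrank_mul_finrank_top hle
    rw [← h5, hdeg] at h6
    have h7 : relfinrank (adjoin k {y ^ q}) (adjoin k {y}) = 1 := by
      rw [← h5]
      exact Nat.eq_of_mul_eq_mul_right hpos (by rw [h6, one_mul])
    exact not_mem_adjoin_pow y hy q hq2
      ((relfinrank_eq_one_iff.mp h7) (mem_adjoin_simple_self k y))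
  have hfds : FiniteDimensional (adjoin k {s}) E := hFD k E s y hsT hy hfd
  have hadd := hADD k E (σ y) y q (by omega) hσy hy hsT hfd
  rw [hdeg] at hadd
  -- the two kinds of places
  set S1 := S.filter fun i => ∀ j : ℤ, j < 0 → (i y).coeff j = 0 with hS1
  set S2 := S.filter fun i => ¬ ∀ j : ℤ, j < 0 → (i y).coeff j = 0 with hS2
  have hcard : S1.card + S2.card = S.card := Finset.card_filter_add_card_filter_not _
  have hb1 : S1.card ≤ e * Module.finrank (adjoin k {s}) E := by
    apply hZER k E τ s e he hτ hsT hfds S1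
    intro i hi
    obtain ⟨hi, hi'⟩ := Finset.mem_filter.mp hi
    refine ⟨(hS i hi).1, ?_⟩
    intro j hj
    obtain ⟨W, hW⟩ := exists_powerSeries (i y) hi'
    have h4 : i s = hmap (φ : k →+* k) (i y) - (i y) ^ q := by
      rw [hs, map_sub, map_pow, hcom i hi]
    rw [h4, HahnSeries.coeff_sub, hmap_coeff, ← hW, ← PowerSeries.coe_pow, PowerSeries.coeff_coe,
      PowerSeries.coeff_coe]
    rcases lt_or_eq_of_le hj with hj | rfl
    · rw [if_pos hj, if_pos hj, map_zero, sub_zero]
    · simp only [lt_irrefl, if_false, Int.natAbs_zero, PowerSeries.coeff_zero_eq_constantCoeff,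
        map_pow]
      show φ _ - _ = _
      rw [hφ, sub_self]
  have hb2 : S2.card ≤ e * Module.finrank (adjoin k {y}) E := by
    have hyi : Transcendental k y⁻¹ := by
      intro h
      apply hy
      have := h.inv
      rwa [inv_inv] at this
    have hfdi : FiniteDimensional (adjoin k {y⁻¹}) E := hFD k E y⁻¹ y hyi hy hfd
    have h4 := hZER k E τ y⁻¹ e he hτ hyi hfdi S2 (by
      intro i hi
      obtain ⟨hi, hi'⟩ := Finset.mem_filter.mp hi
      refine ⟨(hS i hi).1, ?_⟩
      push Not at hi'
      obtain ⟨j, hj, hne⟩ := hi'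
      rw [map_inv₀]
      exact inv_coeff (i y) j hj hne)
    rwa [adjoin_inv] at h4
  calc S.card = S1.card + S2.card := hcard.symm
    _ ≤ e * Module.finrank (adjoin k {s}) E + e * Module.finrank (adjoin k {y}) E :=
        Nat.add_le_add hb1 hb2
    _ ≤ e * (Module.finrank (adjoin k {y}) E + q * Module.finrank (adjoin k {y}) E) +
        e * Module.finrank (adjoin k {y}) E :=
        Nat.add_le_add_right (Nat.mul_le_mul_left _ hadd) _
    _ = (q + 2) * e * Module.finrank (adjoin k {y}) E := by ring

end Pool.Agent.P8H91.GO
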