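import Mathlib

/-!
# Project GO (MP_9b502d_nt): statements

Strong uniform boundedness in characteristic `p` for one-parameter families over a finite field
which are fully expanding at one place, by counting rational points.
-/

namespace Pool.Agent.P8H91.GO

open Polynomial

universe u v w

/-- The polynomial `F(τ, z) / δ(τ)` in `z`. -/
noncomputable def fam {A : Type w} [Field A] (F : A[X][X]) (δ : A[X]) {L : Type u} [Field L]
    [Algebra A L] (τ : L) : L[X] :=
  C ((aeval τ δ)⁻¹) * F.map (aeval τ : A[X] →ₐ[A] L).toRingHom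

/-- The leading form at `T = ∞`: the sum of the `c z ^ i` over the terms `c T ^ j z ^ i` of `F`
with `e * j = e * D + r * (d - i)`, `d` the degree of `F` and `D` the degree in `T` of its leading
coefficient. -/
noncomputable def leadForm {A : Type w} [Field A] (F : A[X][X]) (r : ℤ) (e : ℕ) : A[X] :=
  ∑ i ∈ Finset.range (F.natDegree + 1), ∑ j ∈ (F.coeff i).support,
    if (e : ℤ) * j = e * F.leadingCoeff.natDegree + r * ((F.natDegree : ℤ) - i) then
      C ((F.coeff i).coeff j) * X ^ i else 0

/-- Fully expanding at `T = ∞`. -/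
structure Expanding {A : Type w} [Field A] (F : A[X][X]) (δ : A[X]) (r : ℤ) (e : ℕ) : Prop where
  he : 1 ≤ e
  hd : 2 ≤ F.natDegree
  hδ : δ ≠ 0
  hle : ∀ i j : ℕ, (F.coeff i).coeff j ≠ 0 →
    (e : ℤ) * j ≤ e * F.leadingCoeff.natDegree + r * ((F.natDegree : ℤ) - i)
  hpos : 0 < (e : ℤ) * ((F.leadingCoeff.natDegree : ℤ) - δ.natDegree) +
    r * ((F.natDegree : ℤ) - 1)
  hsep : (leadForm F r e).Separable

/-- preperiodic points of a polynomial -/
def Pre {L : Type u} [Field L] (f : L[X]) : Set L :=
  {z | (Set.range fun m : ℕ => (fun x => f.eval x)^[m] z).Finite}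

/-- LOC: all solutions of `f^(m+n)(x) = f^m(x)` near `T = ∞` -/
def S_LOC : Prop := ∀ (κ : Type u) [Field κ] (F : κ[X][X]) (δ : κ[X]) (r : ℤ) (e : ℕ),
  Expanding F δ r e → (leadForm F r e).Splits → ∀ m n : ℕ, 1 ≤ n →
  ∃ s : Finset (LaurentSeries κ), s.card = F.natDegree ^ (m + n) ∧ ∀ x ∈ s,
    (∀ i : ℤ, i < -r → x.coeff i = 0) ∧
    (fun y => (fam F δ (HahnSeries.single (-(e : ℤ)) (1 : κ) : LaurentSeries κ)).eval y)^[m + n] x =
    (fun y => (fam F δ (HahnSeries.single (-(e : ℤ)) (1 : κ) : LaurentSeries κ)).eval y)^[m] x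

/-- FD: finiteness does not depend on the variable -/
def S_FD : Prop := ∀ (k F : Type u) [Field k] [Field F] [Algebra k F] (a b : F),
  Transcendental k a → Transcendental k b →
  FiniteDimensional (IntermediateField.adjoin k {b}) F →
  FiniteDimensional (IntermediateField.adjoin k {a}) F

/-- ADD: the degree of `a - b ^ N` -/
def S_ADD : Prop := ∀ (k F : Type u) [Field k] [Field F] [Algebra k F] (a b : F) (N : ℕ), 1 ≤ N →
  Transcendental k a → Transcendental k b → Transcendental k (a - b ^ N) →
  FiniteDimensional (IntermediateField.adjoin k {b}) F →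
  Module.finrank (IntermediateField.adjoin k {a - b ^ N}) F ≤
    Module.finrank (IntermediateField.adjoin k {a}) F +
    N * Module.finrank (IntermediateField.adjoin k {b}) F

/-- MUL: the degree of a product -/
def S_MUL : Prop := ∀ (k F : Type u) [Field k] [Field F] [Algebra k F] (a b : F),
  Transcendental k a → Transcendental k b → Transcendental k (a * b) →
  FiniteDimensional (IntermediateField.adjoin k {b}) F →
  Module.finrank (IntermediateField.adjoin k {a * b}) F ≤
    Module.finrank (IntermediateField.adjoin k {a}) F +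
    Module.finrank (IntermediateField.adjoin k {b}) F

/-- GON: the gonality of a subfield -/
def S_GON : Prop := ∀ (k L : Type u) [Field k] [IsAlgClosed k] [Field L] [Algebra k L]
  (E : IntermediateField k L) (t : L), Transcendental k t →
  FiniteDimensional (IntermediateField.adjoin k {t}) L → (∃ x : E, Transcendental k x) →
  ∃ y : E, Transcendental k y ∧ FiniteDimensional (IntermediateField.adjoin k {y}) E ∧
    Module.finrank (IntermediateField.adjoin k {y}) E ≤
      Module.finrank (IntermediateField.adjoin k {t}) L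

/-- ZER: a function has few zeros among the places above `τ = ∞` -/
def S_ZER : Prop := ∀ (k F : Type u) [Field k] [Field F] [Algebra k F] (τ x : F) (e : ℕ), 1 ≤ e →
  Transcendental k τ → Transcendental k x →
  FiniteDimensional (IntermediateField.adjoin k {x}) F →
  ∀ S : Finset (F →ₐ[k] LaurentSeries k),
  (∀ i ∈ S, i τ = HahnSeries.single (-(e : ℤ)) 1 ∧ ∀ j : ℤ, j ≤ 0 → (i x).coeff j = 0) →
  S.card ≤ e * Module.finrank (IntermediateField.adjoin k {x}) F

/-- COR1: the key inequality: many rational places force a large degree -/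
def S_KEY : Prop := ∀ (κ : Type) (k E : Type u) [Field κ] [Fintype κ] [Field k] [IsAlgClosed k]
  [Algebra κ k] [Field E] [Algebra k E] (τ : E) (Z : Set E) (e : ℕ), 1 ≤ e → Transcendental k τ →
  IntermediateField.adjoin k (insert τ Z) = ⊤ →
  ∀ S : Finset (E →ₐ[k] LaurentSeries k),
  (∀ i ∈ S, i τ = HahnSeries.single (-(e : ℤ)) 1 ∧ ∀ z ∈ Z, ∀ j : ℤ, ∃ c : κ,
    (i z).coeff j = algebraMap κ k c) →
  ∀ y : E, Transcendental k y → FiniteDimensional (IntermediateField.adjoin k {y}) E →
  S.card ≤ (Fintype.card κ + 2) * e * Module.finrank (IntermediateField.adjoin k {y}) E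

/-- INT: points with finite orbit are almost integral -/
def S_INT : Prop := ∀ (R : Type v) (L : Type u) [CommRing R] [Field L] [Algebra R L] (F : R[X])
  (δ : R), 2 ≤ F.natDegree → algebraMap R L δ ≠ 0 → algebraMap R L F.leadingCoeff ≠ 0 →
  ∀ z : L, (Set.range fun m : ℕ =>
    (fun x => aeval x F / algebraMap R L δ)^[m] z).Finite →
  IsIntegral R (algebraMap R L F.leadingCoeff * z)

/-- ALG: the theorem over an algebraically closed field of constants -/
def S_ALG : Prop := ∀ (κ : Type) [Field κ] [Fintype κ] (F : κ[X][X]) (δ : κ[X]) (r : ℤ) (e : ℕ),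
  Expanding F δ r e → (leadForm F r e).Splits → ∃ N : ℕ → ℕ,
  ∀ (k L : Type u) [Field k] [IsAlgClosed k] [Field L] [Algebra k L] [Algebra κ k] [Algebra κ L]
  [IsScalarTower κ k L] (t τ : L), Transcendental k t → Transcendental k τ →
  FiniteDimensional (IntermediateField.adjoin k {t}) L →
  (Pre (fam F δ τ)).encard ≤ (N (Module.finrank (IntermediateField.adjoin k {t}) L) : ℕ∞)

/-- CMP: compositum with the algebraic closure of the field of constants -/
def S_CMP : Prop := ∀ (k : Type v) (L : Type u) [Field k] [Field L] [Algebra k L] (t τ : L),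
  Transcendental k t → Transcendental k τ →
  FiniteDimensional (IntermediateField.adjoin k {t}) L →
  ∃ (k' L' : Type u) (_ : Field k') (_ : IsAlgClosed k') (_ : Field L') (_ : Algebra k' L')
    (j : L →+* L'), Transcendental k' (j t) ∧ Transcendental k' (j τ) ∧
    FiniteDimensional (IntermediateField.adjoin k' {j t}) L' ∧
    Module.finrank (IntermediateField.adjoin k' {j t}) L' ≤
      Module.finrank (IntermediateField.adjoin k {t}) L ∧
    ∀ x : L, IsAlgebraic k x → ∃ c : k', algebraMap k' L' c = j x

/-- GEN: the theorem over an arbitrary field of constants -/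
def S_GEN : Prop := ∀ (A : Type) [Field A] [Finite A] (F : A[X][X]) (δ : A[X]) (r : ℤ) (e : ℕ),
  Expanding F δ r e → ∃ N : ℕ → ℕ,
  ∀ (k : Type v) (L : Type u) [Field k] [Field L] [Algebra k L] [Algebra A L] (t τ : L),
  Transcendental k t → Transcendental k τ →
  FiniteDimensional (IntermediateField.adjoin k {t}) L →
  (Pre (fam F δ τ)).encard ≤ (N (Module.finrank (IntermediateField.adjoin k {t}) L) : ℕ∞)

/-- ADP: additive polynomials plus constants -/
def S_ADP : Prop := ∀ p m : ℕ, p.Prime → 1 ≤ m → ∃ N : ℕ → ℕ,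
  ∀ (k : Type v) (L : Type u) [Field k] [Field L] [CharP L p] [Algebra k L] (t : L),
  Transcendental k t → FiniteDimensional (IntermediateField.adjoin k {t}) L →
  ∀ a b c : L, a ≠ 0 → Transcendental k b →
  (Pre (C a * X ^ p ^ m + C b * X + C c)).encard ≤
    (N (Module.finrank (IntermediateField.adjoin k {t}) L) : ℕ∞)

end Pool.Agent.P8H91.GO
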